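import Pool.Agent.V11128.CXL.O

/-!
# Joint moments of ζ and ζ' near the critical line

Let `δ(T) → 0` and `δ(T) log T → ∞`, `s = 1/2 + δ + it` and `0 < β ≤ 4` real. For every continuous real
function `Φ` on `ℂ²` with `Φ(λa, λb) = |λ|^β Φ(a, b)` for all complex `λ`,

`(1/T) ∫_0^T Φ(ζ(s), δ ζ'(s)) dt ~ a(β/2) (2δ)^(-β²/4) E Φ(1, -β/4 + X)`,

where `X` is a circular complex normal variable with `E |X|² = 1/4`. In particular, for all real
`0 ≤ k ≤ β`, the mean of `|ζ(s)|^(β-k) |ζ'(s)|^k` is asymptotic to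
`a(β/2) (2δ)^(-β²/4) δ^(-k) E |-β/4 + X|^k`; for `k = 2` the last factor is `(β² + 4)/16`, and for `k = β`
these are the moments of `ζ'` of all real orders at most four.

Proof. For the divided differences with step `ihδ` this is the case of two shifts of the theorem on
homogeneous functions of shifted values (`homog_full`), with the law at two points written explicitly
(`two_law`). The derivative differs from the divided difference by at most `64 h` times the maximum of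
`|ζ|` on a disc of radius `δ/4`; by the submean inequality, the mean of the `β`-th power of that maximum is
at most a constant times `(2δ)^(-β²/4)` (`max_mean`). Then `h → 0` (`two_lim`).
-/

set_option autoImplicit false

namespace Pool.Agent.Results.MP_91b7ff_nt.DerivativeMoments

open Filter MeasureTheory Topology ProbabilityTheory

/-- The coefficient `s (s + 1) ⋯ (s + m - 1) / m!` of `x^m` in `(1 - x)^(-s)`. -/
noncomputable def ds (s : ℝ) (m : ℕ) : ℝ := ∏ i ∈ Finset.range m, (s + i) / ((i : ℝ) + 1)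

/-- The arithmetic factor `a(s) = ∏_p (1 - 1/p)^(s²) ∑_m ds(m)² p^(-m)`. -/
noncomputable def ak (s : ℝ) : ℝ :=
  ∏' p : Nat.Primes, ((1 - 1 / (p : ℝ)) ^ (s ^ 2) * ∑' m : ℕ, ds s m ^ 2 * (1 / (p : ℝ)) ^ m)

/-- The point `1/2 + δ + it`. -/
noncomputable def pt (δ t : ℝ) : ℂ := 1 / 2 + δ + (t : ℂ) * Complex.I

/-- The standard normal law on `ℝ²`. -/
noncomputable def law : Measure (ℝ × ℝ) := (gaussianReal 0 1).prod (gaussianReal 0 1)

/-- `-β/4 + (x + iy)/(2√2)`; under the standard normal law of `(x, y)` the second term is a circular complex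
normal variable with `E |·|² = 1/4`. -/
noncomputable def q (β : ℝ) (p : ℝ × ℝ) : ℂ :=
  -(β / 4 : ℂ) + ((p.1 : ℂ) + (p.2 : ℂ) * Complex.I) / (2 * √2 : ℝ)

lemma q_norm_sq (β : ℝ) (p : ℝ × ℝ) :
    ‖q β p‖ ^ (2 : ℝ) = β ^ 2 / 16 - β / (4 * √2) * (p.1 * 1) + (1 / 8 * (p.1 ^ 2 * 1) + 1 / 8 * (1 * p.2 ^ 2)) := by
  rw [Real.rpow_two, ← Complex.normSq_eq_norm_sq, Complex.normSq_apply]
  have h1 : (q β p).re = -(β / 4) + p.1 / (2 * √2) := by
    unfold q
    rw [Complex.add_re, Complex.div_ofReal_re]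
    simp
  have h2 : (q β p).im = p.2 / (2 * √2) := by
    unfold q
    rw [Complex.add_im, Complex.div_ofReal_im]
    simp
  obtain ⟨r, hr⟩ : ∃ r : ℝ, r = 1 / (2 * √2) := ⟨_, rfl⟩
  have h3 : r * r = 1 / 8 := by
    rw [hr, div_mul_div_comm, mul_mul_mul_comm, Real.mul_self_sqrt (by norm_num)]
    norm_num
  have h4 : ∀ x : ℝ, x / (2 * √2) = x * r := fun x => by rw [hr]; ring
  have h5 : β / (4 * √2) = β / 2 * r := by rw [hr]; ring
  rw [h1, h2, h4, h4, h5]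
  linear_combination (p.1 ^ 2 + p.2 ^ 2) * h3

lemma q_mean (β : ℝ) : ∫ p, ‖q β p‖ ^ (2 : ℝ) ∂law = (β ^ 2 + 4) / 16 := by
  have i1 : Integrable (fun x : ℝ => x) (gaussianReal 0 1) := (memLp_id_gaussianReal 1).integrable (by norm_num)
  have i2 : Integrable (fun x : ℝ => x ^ 2) (gaussianReal 0 1) := (memLp_id_gaussianReal 2).integrable_sq
  have v1 : ∫ x : ℝ, x ∂(gaussianReal 0 1) = 0 := integral_id_gaussianReal
  have v2 : ∫ x : ℝ, x ^ 2 ∂(gaussianReal 0 1) = 1 := by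
    have h := variance_id_gaussianReal (μ := 0) (v := 1)
    rw [variance_of_integral_eq_zero aemeasurable_id v1] at h
    simpa using h
  have one : Integrable (fun _ : ℝ => (1 : ℝ)) (gaussianReal 0 1) := integrable_const 1
  simp_rw [q_norm_sq]
  unfold law
  have a1 : Integrable (fun p : ℝ × ℝ => p.1 * 1) ((gaussianReal 0 1).prod (gaussianReal 0 1)) := i1.mul_prod one
  have a2 : Integrable (fun p : ℝ × ℝ => p.1 ^ 2 * 1) ((gaussianReal 0 1).prod (gaussianReal 0 1)) := i2.mul_prod one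
  have a3 : Integrable (fun p : ℝ × ℝ => 1 * p.2 ^ 2) ((gaussianReal 0 1).prod (gaussianReal 0 1)) := one.mul_prod i2
  have b1 : ∫ p : ℝ × ℝ, p.1 * 1 ∂((gaussianReal 0 1).prod (gaussianReal 0 1)) = 0 := by
    rw [integral_prod_mul (fun x : ℝ => x) (fun _ : ℝ => (1 : ℝ)), v1, zero_mul]
  have b2 : ∫ p : ℝ × ℝ, p.1 ^ 2 * 1 ∂((gaussianReal 0 1).prod (gaussianReal 0 1)) = 1 := by
    rw [integral_prod_mul (fun x : ℝ => x ^ 2) (fun _ : ℝ => (1 : ℝ)), v2]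
    simp
  have b3 : ∫ p : ℝ × ℝ, 1 * p.2 ^ 2 ∂((gaussianReal 0 1).prod (gaussianReal 0 1)) = 1 := by
    rw [integral_prod_mul (fun _ : ℝ => (1 : ℝ)) (fun x : ℝ => x ^ 2), v2]
    simp
  have c1 : Integrable (fun p : ℝ × ℝ => β ^ 2 / 16 - β / (4 * √2) * (p.1 * 1))
      ((gaussianReal 0 1).prod (gaussianReal 0 1)) := (integrable_const _).sub (a1.const_mul _)
  have c2 : Integrable (fun p : ℝ × ℝ => 1 / 8 * (p.1 ^ 2 * 1) + 1 / 8 * (1 * p.2 ^ 2))
      ((gaussianReal 0 1).prod (gaussianReal 0 1)) := (a2.const_mul _).add (a3.const_mul _)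
  rw [integral_add c1 c2, integral_sub (integrable_const _) (a1.const_mul _), integral_add (a2.const_mul _) (a3.const_mul _),
    integral_const_mul, integral_const_mul, integral_const_mul, b1, b2, b3]
  simp
  ring

/-- Let `δ(T) → 0`, `δ(T) log T → ∞`, `s = 1/2 + δ + it` and `0 < β ≤ 4`; then `a(β/2) > 0` and:

(1) for all continuous `Φ : ℂ² → ℝ` with `Φ(λa, λb) = |λ|^β Φ(a, b)` for all complex `λ`, the function
`Φ(1, q)` is integrable and `(2δ)^(β²/4) (1/T) ∫_0^T Φ(ζ(s), δ ζ'(s)) dt → a(β/2) E Φ(1, q)`;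

(2) for all real `0 ≤ k ≤ β`: `(2δ)^(β²/4) δ^k (1/T) ∫_0^T |ζ(s)|^(β-k) |ζ'(s)|^k dt → a(β/2) E |q|^k`;

(3) if `β ≥ 2` then `(2δ)^(β²/4) δ² (1/T) ∫_0^T |ζ(s)|^(β-2) |ζ'(s)|² dt → a(β/2) (β² + 4)/16`. -/
theorem result (δ : ℝ → ℝ) (hδ : Tendsto δ atTop (𝓝 0))
    (hδL : Tendsto (fun T : ℝ => δ T * Real.log T) atTop atTop) (β : ℝ) (hβ : 0 < β) (hβ4 : β ≤ 4) :
    0 < ak (β / 2) ∧
    (∀ Φ : ℂ × ℂ → ℝ, Continuous Φ → (∀ l a b : ℂ, Φ (l * a, l * b) = ‖l‖ ^ β * Φ (a, b)) →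
      Integrable (fun p => Φ (1, q β p)) law ∧
      Tendsto (fun T : ℝ => (2 * δ T) ^ ((β / 2) ^ 2) / T *
        ∫ t in Set.Icc 0 T, Φ (riemannZeta (pt (δ T) t), δ T * deriv riemannZeta (pt (δ T) t))) atTop
        (𝓝 (ak (β / 2) * ∫ p, Φ (1, q β p) ∂law))) ∧
    (∀ k : ℝ, 0 ≤ k → k ≤ β →
      Tendsto (fun T : ℝ => (2 * δ T) ^ ((β / 2) ^ 2) * (δ T) ^ k / T *
        ∫ t in Set.Icc 0 T, ‖riemannZeta (pt (δ T) t)‖ ^ (β - k) * ‖deriv riemannZeta (pt (δ T) t)‖ ^ k) atTop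
        (𝓝 (ak (β / 2) * ∫ p, ‖q β p‖ ^ k ∂law))) ∧
    (2 ≤ β →
      Tendsto (fun T : ℝ => (2 * δ T) ^ ((β / 2) ^ 2) * (δ T) ^ (2 : ℝ) / T *
        ∫ t in Set.Icc 0 T, ‖riemannZeta (pt (δ T) t)‖ ^ (β - 2) * ‖deriv riemannZeta (pt (δ T) t)‖ ^ (2 : ℝ)) atTop
        (𝓝 (ak (β / 2) * ((β ^ 2 + 4) / 16)))) := by
  have main : ∀ Φ : ℂ × ℂ → ℝ, Continuous Φ → (∀ l a b : ℂ, Φ (l * a, l * b) = ‖l‖ ^ β * Φ (a, b)) →
      Integrable (fun p => Φ (1, q β p)) law ∧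
      Tendsto (fun T : ℝ => (2 * δ T) ^ ((β / 2) ^ 2) / T *
        ∫ t in Set.Icc 0 T, Φ (riemannZeta (pt (δ T) t), δ T * deriv riemannZeta (pt (δ T) t))) atTop
        (𝓝 (ak (β / 2) * ∫ p, Φ (1, q β p) ∂law)) := fun Φ hc hh =>
    Pool.Agent.V11128.CXL.deriv_moment hδ hδL hβ hβ4 hc hh
  have joint : ∀ k : ℝ, 0 ≤ k → k ≤ β →
      Tendsto (fun T : ℝ => (2 * δ T) ^ ((β / 2) ^ 2) * (δ T) ^ k / T *
        ∫ t in Set.Icc 0 T, ‖riemannZeta (pt (δ T) t)‖ ^ (β - k) * ‖deriv riemannZeta (pt (δ T) t)‖ ^ k) atTop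
        (𝓝 (ak (β / 2) * ∫ p, ‖q β p‖ ^ k ∂law)) := by
    intro k hk hkβ
    obtain ⟨Φ, hΦ⟩ : ∃ Φ : ℂ × ℂ → ℝ, Φ = fun z => ‖z.1‖ ^ (β - k) * ‖z.2‖ ^ k := ⟨_, rfl⟩
    have hc : Continuous Φ := by
      rw [hΦ]
      exact (continuous_fst.norm.rpow_const fun _ => Or.inr (by linarith)).mul
        (continuous_snd.norm.rpow_const fun _ => Or.inr hk)
    have hh : ∀ l a b : ℂ, Φ (l * a, l * b) = ‖l‖ ^ β * Φ (a, b) := by
      intro l a b
      rw [hΦ]
      simp only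
      rw [norm_mul, norm_mul, Real.mul_rpow (norm_nonneg _) (norm_nonneg _), Real.mul_rpow (norm_nonneg _) (norm_nonneg _)]
      have e : ‖l‖ ^ β = ‖l‖ ^ (β - k) * ‖l‖ ^ k := by
        rw [← Real.rpow_add_of_nonneg (norm_nonneg _) (by linarith) hk, sub_add_cancel]
      rw [e]
      ring
    have h1 := (main Φ hc hh).2
    have e1 : ∫ p, Φ (1, q β p) ∂law = ∫ p, ‖q β p‖ ^ k ∂law := by
      refine integral_congr_ae (Eventually.of_forall fun p => ?_)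
      simp only [hΦ, norm_one, Real.one_rpow, one_mul]
    rw [e1] at h1
    refine h1.congr' ?_
    filter_upwards [Pool.Agent.Y753.SHR.pos_path hδL] with T hT
    have e2 : ∫ t in Set.Icc 0 T, Φ (riemannZeta (pt (δ T) t), δ T * deriv riemannZeta (pt (δ T) t)) =
        (δ T) ^ k * ∫ t in Set.Icc 0 T, ‖riemannZeta (pt (δ T) t)‖ ^ (β - k) * ‖deriv riemannZeta (pt (δ T) t)‖ ^ k := by
      rw [← integral_const_mul]
      refine integral_congr_ae (Eventually.of_forall fun t => ?_)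
      simp only [hΦ]
      rw [norm_mul, Complex.norm_real, Real.norm_of_nonneg hT.le, Real.mul_rpow hT.le (norm_nonneg _)]
      ring
    rw [e2]
    ring
  refine ⟨Pool.Agent.H306R2.aF_pos (by positivity), main, joint, fun h2 => ?_⟩
  have h3 := joint 2 (by norm_num) h2
  rwa [q_mean] at h3

end Pool.Agent.Results.MP_91b7ff_nt.DerivativeMoments
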