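import Pool.Agent.V11128.CXL.I

/-!
# Means of all homogeneous functions of shifted values of ζ near the critical line

Let `δ(T) → 0` and `δ(T) log T → ∞`, let `a_1, ..., a_n` be real, `0 < β ≤ 4`, and let `Φ` be any continuous
real function on `ℂ^n` with `Φ(λz) = |λ|^β Φ(z)` for all complex `λ`. Then the mean over `t ∈ [0, T]` of
`Φ(ζ(1/2 + δ + i(t + a_1 δ)), ..., ζ(1/2 + δ + i(t + a_n δ)))` is asymptotic to
`a(β/2) (2δ)^(-β²/4) E Φ(exp z_1, ..., exp z_n)`, where `z` is the circular complex normal vector with means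
`-(β/2) ℓ(a_j)` and covariances `ℓ(a_j) + ℓ(-a_i) - ℓ(a_j - a_i)`, `ℓ(x) = log (1 + ix/2)`. For all `β` in a
countable set, `β ≤ 4` or `β ≥ 4 + 4c`, the same holds off a set of measure `o(T δ^(4 + 4c))` of large values.

Examples of `Φ`: `|c_1 z_1 + ... + c_n z_n|^β` (moments of order `β` of linear combinations of shifted
values, in particular of increments), `max |z_j|^β` (moments of local maxima), `(∑ c_j |z_j|^p)^(β/p)`
(moments of real order `β/p` of local moments), real parts of products of powers of the `z_j`, `conj z_i`.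

The proof starts from the convergence in law of the complex ratios under the weight `|ζ|^β`
(`Pool.Agent.V11128.CXL.core'`); the uniform integrability comes from the fact that all the tilted laws have
total mass one (`crit`).
-/

set_option autoImplicit false

namespace Pool.Agent.Results.MP_91b7ff_nt.HomogeneousMoments

open Filter MeasureTheory Topology ProbabilityTheory

/-- The coefficient `s (s + 1) ⋯ (s + m - 1) / m!` of `x^m` in `(1 - x)^(-s)`. -/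
noncomputable def ds (s : ℝ) (m : ℕ) : ℝ := ∏ i ∈ Finset.range m, (s + i) / ((i : ℝ) + 1)

/-- The arithmetic factor `a(s) = ∏_p (1 - 1/p)^(s²) ∑_m ds(m)² p^(-m)`. -/
noncomputable def ak (s : ℝ) : ℝ :=
  ∏' p : Nat.Primes, ((1 - 1 / (p : ℝ)) ^ (s ^ 2) * ∑' m : ℕ, ds s m ^ 2 * (1 / (p : ℝ)) ^ m)

/-- `ζ(1/2 + δ + i(t + xδ))`. -/
noncomputable def Z (δ x t : ℝ) : ℂ :=
  riemannZeta (1 / 2 + δ + ((t + x * δ : ℝ) : ℂ) * Complex.I)

/-- `Φ(λz) = |λ|^β Φ(z)` for all complex `λ`. -/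
def IsHom {n : ℕ} (β : ℝ) (Φ : (Fin n → ℂ) → ℝ) : Prop :=
  ∀ (l : ℂ) (z : Fin n → ℂ), Φ (fun j => l * z j) = ‖l‖ ^ β * Φ z

/-- `ℓ(x) = log (1 + ix/2)`, principal determination. -/
noncomputable def ell (x : ℝ) : ℂ := Complex.log (1 + Complex.I * (x : ℂ) / 2)

/-- The means of the limit law. -/
noncomputable def mean {n : ℕ} (β : ℝ) (a : Fin n → ℝ) (j : Fin n) : ℂ := -(β / 2 : ℂ) * ell (a j)

/-- The covariances `E (z_j - m_j) conj (z_i - m_i)` of the limit law. -/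
noncomputable def cov {n : ℕ} (a : Fin n → ℝ) (j i : Fin n) : ℂ :=
  ell (a j) + ell (-a i) - ell (a j - a i)

/-- `ρ` is the circular complex normal law on `ℂ^n` with mean `m` and covariance matrix `K`: for each
`c ∈ ℂ^n`, the real part of `∑ c_j z_j` has the normal law with mean `Re ∑ c_j m_j` and variance
`(1/2) Re ∑ c_j conj(c_i) K_ji ≥ 0`. -/
def IsCNormal {n : ℕ} (m : Fin n → ℂ) (K : Fin n → Fin n → ℂ) (ρ : ProbabilityMeasure (Fin n → ℂ)) :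
    Prop :=
  ∀ c : Fin n → ℂ, 0 ≤ (∑ j, ∑ i, c j * (starRingEnd ℂ) (c i) * K j i).re / 2 ∧
    (ρ : Measure (Fin n → ℂ)).map (fun z => (∑ j, c j * z j).re) =
      gaussianReal (∑ j, c j * m j).re ((∑ j, ∑ i, c j * (starRingEnd ℂ) (c i) * K j i).re / 2).toNNReal

/-- Let `δ(T) → 0` and `δ(T) log T → ∞`. First part: for `0 < β ≤ 4` and all shifts `a_1, ..., a_n`, with
the circular complex normal law `ρ` of mean `-(β/2) ℓ(a_j)` and covariance
`ℓ(a_j) + ℓ(-a_i) - ℓ(a_j - a_i)`: for all continuous `Φ` with `Φ(λz) = |λ|^β Φ(z)`, the function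
`Φ(exp z_1, ..., exp z_n)` is `ρ`-integrable and

`(2δ)^(β²/4) (1/T) ∫_0^T Φ(ζ(1/2 + δ + i(t + a_1 δ)), ..., ζ(1/2 + δ + i(t + a_n δ))) dt`
`→ a(β/2) ∫ Φ(exp z_1, ..., exp z_n) dρ(z)`.

Second part: let `c ≥ 0`, `S` a countable set of shifts, `B` a countable set of positive reals; off sets
`E(T) ⊆ [0, T]` of measure `o(T δ^(4+4c))`, at each point of which `|ζ(1/2 + δ + i(t + xδ))| > δ^(-2-c)` for
some `x ∈ S ∪ {0}`, the same holds for all `β ∈ B` with `β ≤ 4` or `β ≥ 4 + 4c` and all shifts in `S`. -/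
theorem result (δ : ℝ → ℝ) (hδ : Tendsto δ atTop (𝓝 0))
    (hδL : Tendsto (fun T : ℝ => δ T * Real.log T) atTop atTop) :
    (∀ β : ℝ, 0 < β → 0 < ak (β / 2)) ∧
    (∀ β : ℝ, 0 < β → β ≤ 4 → ∀ (n : ℕ) (a : Fin n → ℝ),
      ∃ ρ : ProbabilityMeasure (Fin n → ℂ), IsCNormal (mean β a) (cov a) ρ ∧
        ∀ Φ : (Fin n → ℂ) → ℝ, Continuous Φ → IsHom β Φ →
          Integrable (fun z => Φ (fun j => Complex.exp (z j))) (ρ : Measure (Fin n → ℂ)) ∧
          Tendsto (fun T : ℝ => (2 * δ T) ^ ((β / 2) ^ 2) / T *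
            ∫ t in Set.Icc 0 T, Φ (fun j => Z (δ T) (a j) t)) atTop
            (𝓝 (ak (β / 2) * ∫ z, Φ (fun j => Complex.exp (z j)) ∂(ρ : Measure (Fin n → ℂ))))) ∧
    ∀ (c : ℝ), 0 ≤ c → ∀ (S B : Set ℝ), S.Countable → B.Countable → (∀ β ∈ B, 0 < β) →
      ∃ E : ℝ → Set ℝ,
        (∀ T, MeasurableSet (E T) ∧ E T ⊆ Set.Icc 0 T ∧ ∀ t ∈ E T, ∃ x ∈ insert 0 S,
          (δ T) ^ (-(2 + c)) < ‖Z (δ T) x t‖) ∧
        Tendsto (fun T => (volume (E T)).toReal / (T * (δ T) ^ (4 + 4 * c))) atTop (𝓝 0) ∧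
        ∀ β ∈ B, (β ≤ 4 ∨ 4 + 4 * c ≤ β) → ∀ (n : ℕ) (a : Fin n → ℝ), (∀ j, a j ∈ S) →
          ∃ ρ : ProbabilityMeasure (Fin n → ℂ), IsCNormal (mean β a) (cov a) ρ ∧
            ∀ Φ : (Fin n → ℂ) → ℝ, Continuous Φ → IsHom β Φ →
              Integrable (fun z => Φ (fun j => Complex.exp (z j))) (ρ : Measure (Fin n → ℂ)) ∧
              Tendsto (fun T : ℝ => (2 * δ T) ^ ((β / 2) ^ 2) / T *
                ∫ t in Set.Icc 0 T \ E T, Φ (fun j => Z (δ T) (a j) t)) atTop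
                (𝓝 (ak (β / 2) * ∫ z, Φ (fun j => Complex.exp (z j)) ∂(ρ : Measure (Fin n → ℂ)))) := by
  refine ⟨fun β hβ => Pool.Agent.H306R2.aF_pos (by positivity), fun β hβ hβ4 n a => ?_,
    fun c hc S B hS hB hB0 => ?_⟩
  · obtain ⟨ρ, hρ, hF⟩ := Pool.Agent.V11128.CXL.homog_full hδ hδL hβ hβ4 a
    obtain ⟨ρ', h1, h2⟩ := Pool.Agent.V11128.CXL.toC β a hρ
    refine ⟨ρ', h1, fun Φ hc hh => ?_⟩
    obtain ⟨h3, h4⟩ := hF Φ hc hh
    obtain ⟨h5, h6⟩ := h2 Φ hc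
    refine ⟨h5 h3, ?_⟩
    rw [h6]
    exact h4
  · obtain ⟨E, hE, hvol, hm⟩ := Pool.Agent.V11128.CXL.homog_small hδ hδL hc hS hB hB0
    refine ⟨E, hE, hvol, fun β hβ hcase n a ha => ?_⟩
    obtain ⟨ρ, hρ, hF⟩ := hm β hβ hcase n a ha
    obtain ⟨ρ', h1, h2⟩ := Pool.Agent.V11128.CXL.toC β a hρ
    refine ⟨ρ', h1, fun Φ hc hh => ?_⟩
    obtain ⟨h3, h4⟩ := hF Φ hc hh
    obtain ⟨h5, h6⟩ := h2 Φ hc
    refine ⟨h5 h3, ?_⟩
    rw [h6]
    exact h4

end Pool.Agent.Results.MP_91b7ff_nt.HomogeneousMoments
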