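import Mathlib
import Pool.Agent.V11104.MM.Pkg
import Pool.Agent.V11104.MM.Low2

set_option autoImplicit false

/-!
# Moments of zeta at well-spaced points and of its local maxima

Outside a set of small proportion all moments of zeta on the critical line have the conjectured order:
this is the starting file `MP_112ba8_nt.LocalLawAndMoments`. Here the integrals are replaced by sums
over well-spaced points. For points of the good set at distance at least `1 / log T` the sum of
`|ζ(1/2 + it)|^β` is at most a constant times `log T` times the conjectured order of the integral, for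
every real `β`. For `|β| > 2 √2`, in particular for all integers `β ≥ 3`, this is sharp even if only one
point of every interval of length one is allowed: the moments of the local maxima of `|ζ|^β` over
intervals of length one have exactly the order `H (log T)^(β²/4 + 1)`.

Upper bounds: on the good set the powers of zeta are majorized by squares of Dirichlet polynomials,
to which a Sobolev inequality applies. Lower bounds: Cauchy's inequality and the upper bound of the
order `H (log T)^(β²/4 - 1)` for the second moment of the integrals of `|ζ|^(β/2)` over intervals of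
length one, which holds for `β² > 8`.
-/

namespace Pool.Agent.Results.MP_91b7ff_nt.LocalMaxima

open Filter MeasureTheory Finset
open scoped ENNReal
open Pool.Agent.V11104.MM

/-- **Theorem.** For all `K ≥ 0`, `θ > 0` and `ε > 0` there are a measurable set `E` of real numbers and
constants `c, C > 0` such that `ζ(1/2 + it) ≠ 0` for `t` in `E`; for every `α < 1`, all large `T` and all
`T / (log T)^α ≤ H ≤ T` the set `E` contains at least `(1 - ε) H` of the points of `[T, T+H]`; and the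
following holds. Call `M` a majorant (for `β`, `T`, `H`) if it is nonnegative and integrable on
`[T, T+H]` and `|ζ(1/2 + i(t + u))|^β ≤ M(t)` for all `t` in `[T, T+H]` and `u` in `[0, 1]` with `t + u`
in `E`. (1) For all large `T`, all `T^θ ≤ H ≤ T` and all real `|β| ≤ K` there is a majorant with
integral at most `C H (log T)^(β²/4 + 1)`, and for all finite sets of points of `E` in `[T, T+H]` with
mutual distances at least `1 / log T` the sum of `|ζ(1/2 + it)|^β` over the points is at most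
`C H (log T)^(β²/4 + 1)`. (2) For every `α < 1`, all large `T`, all `T / (log T)^α ≤ H ≤ T` and all real
`|β| ≤ K` with `β² > 8` every majorant has integral at least `c (β² - 8) H (log T)^(β²/4 + 1)`. -/
theorem result (K θ ε : ℝ) (hK : 0 ≤ K) (hθ : 0 < θ) (hε : 0 < ε) :
    ∃ (E : Set ℝ) (c C : ℝ), MeasurableSet E ∧ 0 < c ∧ 0 < C ∧
    (∀ t ∈ E, riemannZeta (1 / 2 + t * Complex.I) ≠ 0) ∧
    (∀ α : ℝ, 0 ≤ α → α < 1 → ∀ᶠ T : ℝ in atTop, ∀ H : ℝ, T / Real.log T ^ α ≤ H → H ≤ T →
      (1 - ε) * H ≤ volume.real (Set.Icc T (T + H) ∩ E)) ∧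
    (∀ᶠ T : ℝ in atTop, ∀ H : ℝ, T ^ θ ≤ H → H ≤ T → ∀ β : ℝ, |β| ≤ K →
      (∃ M : ℝ → ℝ, (∀ t, 0 ≤ M t) ∧ IntegrableOn M (Set.Icc T (T + H)) ∧
        (∀ t ∈ Set.Icc T (T + H), ∀ u ∈ Set.Icc (0:ℝ) 1, t + u ∈ E →
          ‖riemannZeta (1 / 2 + ((t + u : ℝ) : ℂ) * Complex.I)‖ ^ β ≤ M t) ∧
        ∫ t in Set.Icc T (T + H), M t ≤ C * H * Real.log T ^ (β ^ 2 / 4 + 1)) ∧
      ∀ P : Finset ℝ, (∀ p ∈ P, p ∈ Set.Icc T (T + H) ∧ p ∈ E) →
        (∀ p ∈ P, ∀ p' ∈ P, p ≠ p' → 1 / Real.log T ≤ |p - p'|) →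
        ∑ p ∈ P, ‖riemannZeta (1 / 2 + (p : ℂ) * Complex.I)‖ ^ β ≤ C * H * Real.log T ^ (β ^ 2 / 4 + 1)) ∧
    ∀ α : ℝ, 0 ≤ α → α < 1 → ∀ᶠ T : ℝ in atTop, ∀ H : ℝ, T / Real.log T ^ α ≤ H → H ≤ T →
      ∀ β : ℝ, |β| ≤ K → 8 < β ^ 2 → ∀ M : ℝ → ℝ, (∀ t, 0 ≤ M t) → IntegrableOn M (Set.Icc T (T + H)) →
        (∀ t ∈ Set.Icc T (T + H), ∀ u ∈ Set.Icc (0:ℝ) 1, t + u ∈ E →
          ‖riemannZeta (1 / 2 + ((t + u : ℝ) : ℂ) * Complex.I)‖ ^ β ≤ M t) →
        c * (β ^ 2 - 8) * H * Real.log T ^ (β ^ 2 / 4 + 1) ≤ ∫ t in Set.Icc T (T + H), M t := by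
  obtain ⟨E, c₀, C₀, mE, hc₀, hC₀, hne, hprop, -, hlow, hup, -, hmj⟩ := pkg K θ ε 2 hK hθ hε
  have kB : ∀ β : ℝ, |β| ≤ K → |β / 2| ≤ (2:ℕ) * K + K := by
    intro β hβ
    rw [abs_div, abs_two]
    have := abs_nonneg β
    push_cast
    linarith
  have zkβ : ∀ β s : ℝ, s ∈ E → zk E (β / 2) s = ENNReal.ofReal (‖riemannZeta (1 / 2 + s * Complex.I)‖ ^ β) := by
    intro β s hs
    unfold zk
    rw [Set.indicator_of_mem hs]
    congr 2
    ring
  refine ⟨E, c₀ ^ 2 / (16 * C₀), 2 * C₀, mE, by positivity, by positivity, hne, hprop, ?_, ?_⟩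
  · filter_upwards [hmj, Real.tendsto_log_atTop.eventually_ge_atTop 1, eventually_gt_atTop (1:ℝ)] with
      T hT hL1 hT1 H hH1 hH2 β hβ
    have hT0 : 0 < T := by linarith
    set L := Real.log T with hLd
    have hL : 0 < L := by linarith
    have hH1' : T ^ (min θ (1 / 2)) ≤ H := (Real.rpow_le_rpow_of_exponent_le hT1.le (min_le_left _ _)).trans hH1
    have hH0 : 0 < H := lt_of_lt_of_le (Real.rpow_pos_of_pos hT0 _) hH1
    obtain ⟨F, hF, f1, f2⟩ := hT H hH1' hH2 (β / 2) (kB β hβ)
    have hη0 : 0 ≤ 1 / L := by positivity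
    have hη1 : 1 / L ≤ 1 := by rw [div_le_one hL]; exact hL1
    have e1 : (1:ℝ) + (β / 2) ^ 2 = β ^ 2 / 4 + 1 := by ring
    rw [e1] at f2
    set X : ℝ := C₀ * H * L ^ (β ^ 2 / 4 + 1) with hX
    have hX0 : 0 ≤ X := by positivity
    have hX2 : 2 * C₀ * H * L ^ (β ^ 2 / 4 + 1) = 2 * X := by rw [hX]; ring
    rw [hX2]
    have hFtop : ∫⁻ s in Set.Icc T (T + H + 2), F s ≠ ⊤ := (f2.trans_lt ENNReal.ofReal_lt_top).ne
    constructor
    · set R : ℝ → ℝ≥0∞ := fun t => ∫⁻ v in Set.Icc (0:ℝ) 2, F (t + v) with hR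
      have hRm : Measurable R := (meas2 hF).lintegral_prod_right'
      have hRint : ∫⁻ t in Set.Icc T (T + H), R t ≤ ENNReal.ofReal (2 * X) := by
        refine (dbl hF (by norm_num) le_rfl le_rfl).trans ?_
        rw [ENNReal.ofReal_mul (by norm_num)]
        gcongr
      have hRfin : ∫⁻ t in Set.Icc T (T + H), R t ≠ ⊤ := (hRint.trans_lt ENNReal.ofReal_lt_top).ne
      have hRt : ∀ t ∈ Set.Icc T (T + H), R t ≠ ⊤ := by
        intro t ht
        refine (lt_of_le_of_lt ?_ (lt_top_iff_ne_top.mpr hFtop)).ne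
        have h1 : R t = ∫⁻ v in Set.Icc (0:ℝ) 2, F (v + t) := by
          simp only [hR]
          refine lintegral_congr fun v => ?_
          rw [add_comm]
        rw [h1]
        exact tr F (by linarith [ht.1]) (by linarith [ht.2])
      refine ⟨fun t => (R t).toReal, fun t => ENNReal.toReal_nonneg,
        integrable_toReal_of_lintegral_ne_top hRm.aemeasurable hRfin, ?_, ?_⟩
      · intro t ht u hu hs
        have h1 := f1 (t + u) hs (by linarith [ht.1, hu.1]) (by linarith [ht.2, hu.2])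
        rw [zkβ β _ hs] at h1
        have h2 : ∫⁻ v in Set.Icc 0 (1 / L), F (t + u + v) ≤ R t := by
          have h3 : ∫⁻ v in Set.Icc 0 (1 / L), F (t + u + v) =
              ∫⁻ v in Set.Icc 0 (1 / L), (fun w => F (t + w)) (v + u) := by
            refine lintegral_congr fun v => ?_
            congr 1
            ring
          rw [h3]
          exact tr (fun w => F (t + w)) (by linarith [hu.1]) (by linarith [hu.2])
        exact (ENNReal.ofReal_le_iff_le_toReal (hRt t ht)).mp (h1.trans h2)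
      · have h1 : ∫ t in Set.Icc T (T + H), (R t).toReal = (∫⁻ t in Set.Icc T (T + H), R t).toReal :=
          integral_toReal hRm.aemeasurable (ae_lt_top hRm hRfin)
        rw [h1]
        exact ENNReal.toReal_le_of_le_ofReal (by positivity) hRint
    · intro P hP hsep
      have h1 : ENNReal.ofReal (∑ p ∈ P, ‖riemannZeta (1 / 2 + (p : ℂ) * Complex.I)‖ ^ β) ≤ ENNReal.ofReal X := by
        refine le_trans ?_ f2
        rw [ENNReal.ofReal_sum_of_nonneg fun p _ => Real.rpow_nonneg (norm_nonneg _) _]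
        have h2 : ∀ p ∈ P, ENNReal.ofReal (‖riemannZeta (1 / 2 + (p : ℂ) * Complex.I)‖ ^ β) ≤
            ∫⁻ s in Set.Ico p (p + 1 / L), F s := by
          intro p hp
          have h3 := f1 p (hP p hp).2 (hP p hp).1.1 (by linarith [(hP p hp).1.2])
          rw [zkβ β _ (hP p hp).2] at h3
          have h4 : ∫⁻ v in Set.Icc 0 (1 / L), F (p + v) = ∫⁻ v in Set.Icc 0 (1 / L), F (v + p) :=
            lintegral_congr fun v => by rw [add_comm]
          rw [h4] at h3
          have h5 : ∫⁻ s in Set.Icc p (p + 1 / L), F s = ∫⁻ s in Set.Ico p (p + 1 / L), F s :=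
            setLIntegral_congr Ico_ae_eq_Icc.symm
          rw [← h5]
          exact h3.trans (tr F (by linarith) (by linarith))
        refine (sum_le_sum h2).trans ?_
        rw [← lintegral_biUnion_finset ?_ fun p _ => measurableSet_Ico]
        · refine lintegral_mono_set ?_
          intro s hs
          rw [Set.mem_iUnion₂] at hs
          obtain ⟨p, hp, hs1, hs2⟩ := hs
          have := (hP p hp).1
          exact ⟨by linarith [this.1], by linarith [this.2]⟩
        · intro p hp p' hp' hpp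
          have hd := hsep p hp p' hp' hpp
          rw [Function.onFun, Set.disjoint_left]
          rintro s ⟨a1, a2⟩ ⟨a3, a4⟩
          rcases abs_cases (p - p') with ⟨h6, -⟩ | ⟨h6, -⟩ <;> linarith
      have h3 := (ENNReal.ofReal_le_ofReal_iff hX0).mp h1
      linarith
  · intro α h0 h1
    filter_upwards [hlow α h0 h1, hup, Real.tendsto_log_atTop.eventually_ge_atTop 1, eventually_gt_atTop (1:ℝ)] with
      T a1 a2 hL1 hT1 H hH1 hH2 β hβ hβ8 M hM0 hMi hM
    have hT0 : 0 < T := by linarith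
    set L := Real.log T with hLd
    have hL : 0 < L := by linarith
    obtain ⟨hTθ, b1⟩ := a1 H hH1 hH2
    have hH0 : 0 < H := lt_of_lt_of_le (Real.rpow_pos_of_pos hT0 _) hTθ
    have hk4 : |β / 4| ≤ K := by
      rw [abs_div, abs_of_pos (by norm_num : (0:ℝ) < 4)]
      have := abs_nonneg β
      linarith
    have b2 := b1 (β / 2) (kB β hβ)
    have b3 := a2 H hTθ hH2 1 (by norm_num) (β / 4) hk4
    set x : ℝ := ∫ t in Set.Icc T (T + H), M t with hx
    have hx0 : 0 ≤ x := integral_nonneg hM0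
    have hlx : ∫⁻ t in Set.Icc T (T + H), ENNReal.ofReal (M t) = ENNReal.ofReal x :=
      (ofReal_integral_eq_lintegral_ofReal hMi (Filter.Eventually.of_forall hM0)).symm
    -- Cauchy's inequality
    have s1 : ENNReal.ofReal (c₀ * L ^ ((β / 2) ^ 2) * H) ≤ ∫⁻ t in Set.Icc T (T + H),
        ENNReal.ofReal (M t) ^ (1 / 2 : ℝ) * ∫⁻ u in Set.Icc (0:ℝ) 1, zk E (β / 4) (t + u) := by
      refine (b2.trans (avg (zk_meas mE _) T H)).trans ?_
      refine setLIntegral_mono' measurableSet_Icc fun t ht => ?_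
      have hl := lintegral_const_mul (μ := volume.restrict (Set.Icc (0:ℝ) 1)) (ENNReal.ofReal (M t) ^ (1 / 2 : ℝ))
        (f := fun u => zk E (β / 4) (t + u)) ((zk_meas mE _).comp (measurable_const_add t))
      rw [← hl]
      refine setLIntegral_mono' measurableSet_Icc fun u hu => ?_
      by_cases hs : t + u ∈ E
      · have h2 : zk E (β / 4) (t + u) = zk E (β / 2) (t + u) ^ (1 / 2 : ℝ) := by
          have h3 := zk_rpow (E := E) (a := β / 2) (r := 2) (by norm_num) (t + u)
          have h4 : β / 2 / 2 = β / 4 := by ring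
          rw [h4] at h3
          exact h3
        have h5 : zk E (β / 2) (t + u) ≤ ENNReal.ofReal (M t) := by
          rw [zkβ β _ hs]
          exact ENNReal.ofReal_le_ofReal (hM t ht u hu hs)
        show zk E (β / 2) (t + u) ≤ ENNReal.ofReal (M t) ^ (1 / 2 : ℝ) * zk E (β / 4) (t + u)
        rw [h2]
        calc zk E (β / 2) (t + u) = zk E (β / 2) (t + u) ^ (1 / 2 : ℝ) * zk E (β / 2) (t + u) ^ (1 / 2 : ℝ) := by
              rw [← ENNReal.rpow_add_of_nonneg _ _ (by norm_num) (by norm_num)]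
              norm_num
          _ ≤ _ := by gcongr
      · have h2 : zk E (β / 2) (t + u) = 0 := by
          unfold zk
          exact Set.indicator_of_notMem hs _
        show zk E (β / 2) (t + u) ≤ _
        rw [h2]
        exact zero_le
    have hMm : AEMeasurable (fun t => ENNReal.ofReal (M t) ^ (1 / 2 : ℝ)) (volume.restrict (Set.Icc T (T + H))) :=
      (ENNReal.measurable_ofReal.comp_aemeasurable hMi.aemeasurable).pow_const _
    have s2 := ENNReal.lintegral_mul_le_Lp_mul_Lq (volume.restrict (Set.Icc T (T + H)))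
      Real.HolderConjugate.two_two hMm (Gt_meas mE (β / 4)).aemeasurable
    simp only [Pi.mul_apply] at s2
    have e1 : ∀ t, (ENNReal.ofReal (M t) ^ (1 / 2 : ℝ)) ^ (2:ℝ) = ENNReal.ofReal (M t) := by
      intro t
      rw [← ENNReal.rpow_mul]
      norm_num
    simp_rw [e1] at s2
    rw [hlx] at s2
    have e2 : ∫⁻ t in Set.Icc T (T + H), (∫⁻ u in Set.Icc (0:ℝ) 1, zk E (β / 4) (t + u)) ^ (2:ℝ) ≤
        ENNReal.ofReal (C₀ * H * L ^ (((1 + 1 : ℕ) : ℝ) * (β / 4) ^ 2) *
          (Iq (1 / L) (((1 + 1 : ℕ) : ℝ) * (β / 4) ^ 2)) ^ 1) := by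
      refine le_trans (le_of_eq ?_) b3
      refine lintegral_congr fun t => ?_
      rw [← ENNReal.rpow_natCast]
      norm_num
    set ρ : ℝ := β ^ 2 / 8 with hρ
    have hρ1 : 1 < ρ := by rw [hρ]; linarith
    have e3 : ((1 + 1 : ℕ) : ℝ) * (β / 4) ^ 2 = ρ := by rw [hρ]; push_cast; ring
    rw [e3, pow_one] at e2
    have hI := Iq_pos (δ := 1 / L) (ρ := ρ) (by positivity)
    have hIq := Iq_gt (δ := 1 / L) (ρ := ρ) (by positivity) hρ1
    rw [one_div_one_div] at hIq
    set Z : ℝ := C₀ * H * L ^ ρ * (2 / (ρ - 1) * L ^ (ρ - 1)) with hZ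
    have hρ0 : 0 < ρ - 1 := by linarith
    have hZ0 : 0 < Z := by positivity
    have e4 : ∫⁻ t in Set.Icc T (T + H), (∫⁻ u in Set.Icc (0:ℝ) 1, zk E (β / 4) (t + u)) ^ (2:ℝ) ≤
        ENNReal.ofReal Z := by
      refine e2.trans (ENNReal.ofReal_le_ofReal ?_)
      rw [hZ]
      gcongr
    set Y : ℝ := c₀ * L ^ ((β / 2) ^ 2) * H with hY
    have hY0 : 0 < Y := by positivity
    have s3 : ENNReal.ofReal Y ≤ ENNReal.ofReal x ^ (1 / 2 : ℝ) * ENNReal.ofReal Z ^ (1 / 2 : ℝ) := by
      refine (s1.trans s2).trans ?_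
      gcongr
    have s4 : ENNReal.ofReal (Y ^ 2) ≤ ENNReal.ofReal (x * Z) := by
      have h2 := pow_le_pow_left' s3 2
      rw [mul_pow, ← ENNReal.rpow_natCast (ENNReal.ofReal x ^ (1 / 2 : ℝ)), ← ENNReal.rpow_natCast
        (ENNReal.ofReal Z ^ (1 / 2 : ℝ)), ← ENNReal.rpow_mul, ← ENNReal.rpow_mul, ← ENNReal.ofReal_pow hY0.le] at h2
      norm_num at h2
      rw [ENNReal.ofReal_mul hx0]
      exact h2
    have s5 : Y ^ 2 ≤ x * Z := (ENNReal.ofReal_le_ofReal_iff (by positivity)).mp s4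
    refine le_of_mul_le_mul_right (le_trans (le_of_eq ?_) s5) hZ0
    have e5 : (L ^ ((β / 2) ^ 2)) ^ 2 = L ^ (β ^ 2 / 4 + 1) * (L ^ ρ * L ^ (ρ - 1)) := by
      rw [← Real.rpow_natCast, ← Real.rpow_mul hL.le, ← Real.rpow_add hL, ← Real.rpow_add hL]
      congr 1
      rw [hρ]
      push_cast
      ring
    have e6 : ρ - 1 = (β ^ 2 - 8) / 8 := by rw [hρ]; ring
    rw [hY, mul_pow, mul_pow, e5, hZ]
    have hβ0 : β ^ 2 - 8 ≠ 0 := by linarith
    rw [e6]
    field_simp
    ring

end Pool.Agent.Results.MP_91b7ff_nt.LocalMaxima
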