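import Pool.Agent.V1167.PP.Main

set_option autoImplicit false

/-!
MP_91b7ff_nt. The moments of integral order near the critical line, with the law of the phases.

Let `δ(T) → 0`, `δ(T) log T → ∞` and `c ≥ 0`. Off a set of measure `o(δ^(4+4c) T)` where
`|ζ(1/2 + δ + it)| > δ^(-2-c)`, the moments of order `k`, `k ≤ 4` or `k ≥ 4 + 4c`, on the line
`Re s = 1/2 + δ` are asymptotic to `a(k/2) (2δ)^(-k²/4) T` and, with respect to the weight `|ζ|^k`, the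
family `(p^(it))_p` of the phases of all the primes converges in law to independent points `e(θ_p)`,
`θ_p` with density proportional to `|1 - e(θ) / √p|^(-k)`, asymptotically independent of `log |ζ|`,
which is asymptotically normal with mean `(k/2) log (1/(2δ))` and variance `(1/2) log (1/(2δ))`.
-/

open Filter MeasureTheory Topology

namespace Pool.Agent.Results.MP_91b7ff_nt.PrimePhases

/-- The coefficient `s (s + 1) ⋯ (s + m - 1) / m!` of `x^m` in `(1 - x)^(-s)`. -/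
noncomputable def ds (s : ℝ) (m : ℕ) : ℝ := ∏ i ∈ Finset.range m, (s + i) / ((i : ℝ) + 1)

/-- The arithmetic factor `a(s) = ∏_p (1 - 1/p)^(s²) ∑_m ds(m)² p^(-m)`. -/
noncomputable def ak (s : ℝ) : ℝ :=
  ∏' p : Nat.Primes, ((1 - 1 / (p : ℝ)) ^ (s ^ 2) * ∑' m : ℕ, ds s m ^ 2 * (1 / (p : ℝ)) ^ m)

/-- `|ζ(1/2 + δ + it)|`. -/
noncomputable def Z (δ t : ℝ) : ℝ := ‖riemannZeta (((1 / 2 + δ : ℝ) : ℂ) + t * Complex.I)‖

/-- `log |ζ|` minus `s log (1/(2δ))`, divided by `√((1/2) log (1/(2δ)))`. -/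
noncomputable def N (s δ t : ℝ) : ℝ :=
  (Real.log (Z δ t) - s * Real.log (1 / (2 * δ))) / Real.sqrt (Real.log (1 / (2 * δ)) / 2)

/-- `e(x) = exp(2πix)`. -/
noncomputable def e (x : ℝ) : ℂ := Complex.exp (2 * Real.pi * Complex.I * x)

/-- The `2s`-th power `|1 - e(x) / √p|^(-2s)` of the Euler factor at `p`. -/
noncomputable def euler (s : ℝ) (p : ℕ) (x : ℝ) : ℝ := ‖1 - e x / (Real.sqrt p : ℂ)‖ ^ (-(2 * s))

/-- The probability measure on `[0, 1]` whose density is proportional to `|1 - e(x) / √p|^(-2s)`. -/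
noncomputable def phaseLaw (s : ℝ) (p : ℕ) : Measure ℝ :=
  (volume.restrict (Set.Icc (0:ℝ) 1)).withDensity
    fun x => ENNReal.ofReal (euler s p x / ∫ y in Set.Icc (0:ℝ) 1, euler s p y)

/-- `∫_A |ζ|^k F(N) G((p^(it))_p) dt`, where `ζ = ζ(1/2 + δ + it)`. -/
noncomputable def W (k : ℕ) (F : BoundedContinuousFunction ℝ ℝ) (G : (Nat.Primes → ℂ) → ℂ) (δ : ℝ)
    (A : Set ℝ) : ℂ :=
  ∫ t in A, ((Z δ t ^ k * F (N (k / 2) δ t) : ℝ) : ℂ) * G (fun p => ((p : ℕ) : ℂ) ^ ((t:ℂ) * Complex.I))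

/-- `a(k/2) (∫ F dγ) 𝔼 G((e(θ_p))_p)`, where `γ` is the standard normal law and the `θ_p` are
independent with laws `phaseLaw (k/2) p`. -/
noncomputable def limitValue (k : ℕ) (F : BoundedContinuousFunction ℝ ℝ) (G : (Nat.Primes → ℂ) → ℂ) : ℂ :=
  ((ak (k / 2) * ∫ x, F x ∂(ProbabilityTheory.gaussianReal 0 1) : ℝ) : ℂ) *
    ∫ θ, G (fun p => e (θ p)) ∂(Measure.infinitePi fun p : Nat.Primes => phaseLaw (k / 2) p)

/-- Let `δ(T) → 0`, `δ(T) log T → ∞` and `c ≥ 0`. There are sets `E(T) ⊆ [0, T]` of measure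
`o(δ^(4+4c) T)` on which `|ζ(1/2 + δ + it)| > δ^(-2-c)`, such that for all integers `k ≥ 1` with `k ≤ 4`
or `k ≥ 4 + 4c` (for all integers `k ≥ 1`, if `c ≤ 1/4`), all bounded continuous `F : ℝ → ℝ` and all
continuous functions `G` of the family `(p^(it))_p` indexed by all the primes

`(2δ)^(k²/4) (1/T) ∫_{[0,T] \ E(T)} |ζ|^k F(N) G((p^(it))_p) dt → a(k/2) (∫ F dγ) 𝔼 G((e(θ_p))_p)`,

where `ζ = ζ(1/2 + δ + it)`, `N = (log |ζ| - (k/2) log (1/(2δ))) / √((1/2) log (1/(2δ)))`, `γ` is the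
standard normal law and the `θ_p` are independent with laws `phaseLaw (k/2) p`. For `k ≤ 4` the same
holds with the integral over the whole interval `[0, T]`. -/
theorem result (δ : ℝ → ℝ) (hδ : Tendsto δ atTop (𝓝 0))
    (hδL : Tendsto (fun T : ℝ => δ T * Real.log T) atTop atTop) (c : ℝ) (hc : 0 ≤ c) :
    ∃ E : ℝ → Set ℝ,
      (∀ T, MeasurableSet (E T) ∧ E T ⊆ Set.Icc 0 T ∧ ∀ t ∈ E T, (δ T) ^ (-(2 + c)) < Z (δ T) t) ∧
      Tendsto (fun T => (volume (E T)).toReal / (T * (δ T) ^ (4 + 4 * c))) atTop (𝓝 0) ∧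
      ∀ k : ℕ, 1 ≤ k → 0 < ak (k / 2) ∧
        ∀ F : BoundedContinuousFunction ℝ ℝ, ∀ G : (Nat.Primes → ℂ) → ℂ, Continuous G →
          ((k ≤ 4 ∨ 4 + 4 * c ≤ k) → Tendsto (fun T : ℝ => (((2 * δ T) ^ ((k:ℝ) ^ 2 / 4) / T : ℝ) : ℂ) *
            W k F G (δ T) (Set.Icc 0 T \ E T)) atTop (𝓝 (limitValue k F G))) ∧
          (k ≤ 4 → Tendsto (fun T : ℝ => (((2 * δ T) ^ ((k:ℝ) ^ 2 / 4) / T : ℝ) : ℂ) *
            W k F G (δ T) (Set.Icc 0 T)) atTop (𝓝 (limitValue k F G))) := by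
  obtain ⟨E, hE, hvol, hm⟩ := Pool.Agent.V1167.PP.prime_phases hδ hδL hc
  refine ⟨E, fun T => ⟨(hE T).1, (hE T).2.1, fun t ht => (hE T).2.2 t ht⟩, hvol, fun k hk => ?_⟩
  have hk0 : (0:ℝ) < (k:ℝ) / 2 := by
    have : (0:ℝ) < k := by exact_mod_cast hk
    positivity
  refine ⟨Pool.Agent.H306R2.aF_pos hk0, fun F G hG => ?_⟩
  have e3 : (((k:ℝ) / 2) ^ 2) = (k:ℝ) ^ 2 / 4 := by ring
  have e4 : (2 * ((k:ℝ) / 2)) = ((k : ℕ) : ℝ) := by ring
  constructor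
  · intro hcase
    have h3 := (hm ((k:ℝ) / 2) hk0 (by
      rcases hcase with h | h
      · left
        have : (k:ℝ) ≤ 4 := by exact_mod_cast h
        linarith
      · right; linarith)).2 F G hG
    rw [e3, e4] at h3
    simp_rw [Real.rpow_natCast] at h3
    exact h3
  · intro hk4
    have hk2 : (k:ℝ) / 2 ≤ 2 := by
      have : (k:ℝ) ≤ 4 := by exact_mod_cast hk4
      linarith
    have h3 := Pool.Agent.V1167.PP.full_phases hδ hδL hk0 hk2 F hG
    rw [e3, e4] at h3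
    simp_rw [Real.rpow_natCast] at h3
    exact h3

end Pool.Agent.Results.MP_91b7ff_nt.PrimePhases
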